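import Pool.Agent.helper95.FJ.SpecC
import Pool.Agent.helper40.FI.BDY

/-!
# fj:BDZ
-/

set_option autoImplicit false

namespace Pool.Agent.FJ

open Finset Pool.Agent.FI

theorem BDZ (hFFC : FFC_stmt) : BDZ_stmt := by
  classical
  refine ⟨6, by norm_num, fun N R hN hR z hz T Y hY => ?_⟩
  have hN0 : (0 : ℝ) < N := by exact_mod_cast hN
  have hs : 0 < √(N : ℝ) := Real.sqrt_pos.2 hN0
  have hz' : N < nn z := (mem_filter.1 hz).2.1
  rw [Finset.natCast_card_filter]
  exact BDY_box R z.1 (8 * z.2) T Y (√(N : ℝ)) hR hs (BDY_coef N z hz') hY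

end Pool.Agent.FJ
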