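import Pool.Agent.helper95.FJ.SpecC

/-!
# fj:CPN: a common prime factor
-/

set_option autoImplicit false

open Finset

noncomputable section

namespace Pool.Agent.FJ

open Pool.Agent.FI

open scoped Classical in
private theorem CPN_fib {α β : Type} (S : Finset ((α × α) × β)) (P : Finset (α × β)) (F : α × β → Finset α) (B : ℝ)
    (hP : ∀ t ∈ S, (t.1.1, t.2) ∈ P) (hF : ∀ t ∈ S, t.1.2 ∈ F (t.1.1, t.2)) (hB : ∀ q ∈ P, (#(F q) : ℝ) ≤ B) :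
    (#S : ℝ) ≤ #P * B := by
  have h1 : #S ≤ #(P.sigma F) := by
    refine card_le_card_of_injOn (fun t => ⟨(t.1.1, t.2), t.1.2⟩) ?_ ?_
    · intro t ht
      exact mem_sigma.2 ⟨hP t ht, hF t ht⟩
    · intro t _ t' _ h
      simp only [Sigma.mk.injEq, Prod.mk.injEq, heq_eq_eq] at h
      ext
      · exact h.1.1
      · exact h.2
      · exact h.1.2
  rw [card_sigma] at h1
  have h2 : (#S : ℝ) ≤ ∑ q ∈ P, (#(F q) : ℝ) := by exact_mod_cast h1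
  refine h2.trans ((sum_le_sum hB).trans (le_of_eq ?_))
  rw [sum_const, nsmul_eq_mul]

open scoped Classical in
private theorem CPN_fib2 {α β : Type} (S : Finset (α × β)) (P : Finset α) (F : α → Finset β) (B : ℝ)
    (hP : ∀ t ∈ S, t.1 ∈ P) (hF : ∀ t ∈ S, t.2 ∈ F t.1) (hB : ∀ q ∈ P, (#(F q) : ℝ) ≤ B) :
    (#S : ℝ) ≤ #P * B := by
  have h1 : #S ≤ #(P.sigma F) := by
    refine card_le_card_of_injOn (fun t => ⟨t.1, t.2⟩) ?_ ?_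
    · intro t ht
      exact mem_sigma.2 ⟨hP t ht, hF t ht⟩
    · intro t _ t' _ h
      simp only [Sigma.mk.injEq, heq_eq_eq] at h
      exact Prod.ext h.1 h.2
  rw [card_sigma] at h1
  have h2 : (#S : ℝ) ≤ ∑ q ∈ P, (#(F q) : ℝ) := by exact_mod_cast h1
  refine h2.trans ((sum_le_sum hB).trans (le_of_eq ?_))
  rw [sum_const, nsmul_eq_mul]

private theorem CPN_om (n x : ℕ) (hx : 1 ≤ x) (hn : n ≠ 0) (h : n ≤ 2 * x) :
    (#n.primeFactors : ℝ) ≤ 2 * (1 + Real.log x) := by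
  have h1 : 2 ^ #n.primeFactors ≤ n := by
    have h2 : 2 ^ #n.primeFactors ≤ ∏ p ∈ n.primeFactors, p :=
      pow_card_le_prod _ _ _ fun p hp => (Nat.prime_of_mem_primeFactors hp).two_le
    exact h2.trans (Nat.le_of_dvd (Nat.pos_of_ne_zero hn) (Nat.prod_primeFactors_dvd n))
  have h2 : (2 : ℝ) ^ #n.primeFactors ≤ 2 * x := by exact_mod_cast h1.trans h
  have hx0 : (0 : ℝ) < x := by exact_mod_cast hx
  have h3 := Real.log_le_log (by positivity) h2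
  rw [Real.log_pow, Real.log_mul (by norm_num) hx0.ne'] at h3
  have h4 : (0.6931 : ℝ) < Real.log 2 := by linarith [Real.log_two_gt_d9]
  have h5 : Real.log 2 < 1 := by linarith [Real.log_two_lt_d9]
  have h6 : 0 ≤ Real.log x := Real.log_nonneg (by exact_mod_cast hx)
  have h7 : (0 : ℝ) ≤ #n.primeFactors := Nat.cast_nonneg _
  nlinarith

private theorem CPN_inv (Z R : ℕ) (hZ : 1 ≤ Z) : ∑ g ∈ Ioc Z R, (1 : ℝ) / (g : ℝ) ^ 2 ≤ 1 / Z := by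
  rcases le_total Z R with h | h
  · have h1 := sum_Ioc_inv_sq_le_sub (α := ℝ) (k := Z) (n := R) (by omega) h
    have h2 : (0 : ℝ) ≤ (R : ℝ)⁻¹ := by positivity
    simp only [one_div]
    linarith
  · rw [Ioc_eq_empty_of_le h, sum_empty]
    positivity

private theorem CPN_har (Z R : ℕ) (hR : 1 ≤ R) : ∑ g ∈ Ioc Z R, (1 : ℝ) / (g : ℝ) ≤ 1 + Real.log R := by
  have h1 := harmonic_le_one_add_log R
  rw [harmonic_eq_sum_Icc] at h1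
  push_cast at h1
  refine le_trans ?_ h1
  simp only [one_div]
  refine sum_le_sum_of_subset_of_nonneg ?_ fun i _ _ => by positivity
  intro g hg
  rw [mem_Ioc] at hg
  rw [mem_Icc]
  omega

/-- the sizes as real numbers -/
private theorem CPN_siz {x N R A : ℕ} (h : Siz x N R A) :
    0 < √(N : ℝ) ∧ √(N : ℝ) * √(N : ℝ) = N ∧ (R : ℝ) * √(N : ℝ) ≤ 50 * x ∧ (x : ℝ) ≤ A * √(N : ℝ) ∧ √(N : ℝ) ≤ A := by
  obtain ⟨h1, h2, h3, h4, h5, h6, h7, h8, h9⟩ := h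
  have hN : (0 : ℝ) < N := by exact_mod_cast h2
  have hs : 0 < √(N : ℝ) := Real.sqrt_pos.2 hN
  have hss : √(N : ℝ) * √(N : ℝ) = N := Real.mul_self_sqrt hN.le
  refine ⟨hs, hss, ?_, ?_, ?_⟩
  · have h7' : (R : ℝ) ^ 2 * N ≤ 2500 * (x : ℝ) ^ 2 := by exact_mod_cast h7
    refine abs_le_of_sq_le_sq' ?_ (by positivity) |>.2
    rw [mul_pow, sq (√(N : ℝ)), hss]
    linarith
  · have h8' : (x : ℝ) ^ 2 ≤ (A : ℝ) ^ 2 * N := by exact_mod_cast h8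
    refine abs_le_of_sq_le_sq' ?_ (by positivity) |>.2
    rw [mul_pow, sq (√(N : ℝ)), hss]
    exact h8'
  · have h9' : (N : ℝ) ≤ (A : ℝ) ^ 2 := by exact_mod_cast h9
    refine abs_le_of_sq_le_sq' ?_ (by positivity) |>.2
    rw [sq, hss]
    exact h9'

private theorem CPN_ZD (hFFC : FFC_stmt) (N : ℕ) : (#(ZD N) : ℝ) ≤ 50 * N := by
  have h1 : #(ZD N) ≤ #(FF (2 * N)) := card_le_card (filter_subset _ _)
  have h2 := (hFFC (2 * N)).1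
  have h3 : (#(ZD N) : ℝ) ≤ (#(FF (2 * N)) : ℝ) := by exact_mod_cast h1
  push_cast at h2
  linarith

open scoped Classical in
/-- part (i) -/
private theorem CPN_one (hCZG : CZG_stmt) (hBDZ : BDZ_stmt) (hFFC : FFC_stmt) :
    ∃ C : ℝ, 0 < C ∧ ∀ x N R A Z : ℕ, Siz x N R A → 1 ≤ Z →
  (#{t ∈ (ZD N ×ˢ ZD N) ×ˢ Bx R | (x : ℤ) < lc t.1.1 t.2 ∧ lc t.1.1 t.2 ≤ 2 * x ∧ |ac t.1.1 t.2| ≤ A ∧ |ac t.1.2 t.2| ≤ A ∧
      ∃ g : ℕ, g.Prime ∧ Z < g ∧ (g : ℤ) ∣ lc t.1.1 t.2 ∧ (g : ℤ) ∣ lc t.1.2 t.2 ∧ ¬ ((g : ℤ) ∣ t.2.1 ∧ (g : ℤ) ∣ t.2.2)} : ℝ)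
    ≤ C * (1 + Real.log x) * (N * A ^ 2 / Z + x * A * √N) := by
  obtain ⟨CG, hCG, hG⟩ := hCZG
  obtain ⟨CB, hCB, hBd⟩ := hBDZ
  refine ⟨10000 * CB * CG, by positivity, fun x N R A Z hS hZ => ?_⟩
  obtain ⟨hs, hss, e1, e2, e3⟩ := CPN_siz hS
  obtain ⟨h1, h2, h3, h4, h5, h6, h7, h8, h9⟩ := hS
  have hx0 : (0 : ℝ) < x := by exact_mod_cast h1
  have hN0 : (0 : ℝ) < N := by exact_mod_cast h2
  have hR0 : (0 : ℝ) < R := by exact_mod_cast h3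
  have hA0 : (0 : ℝ) < A := by exact_mod_cast h4
  have hZ0 : (0 : ℝ) < Z := by exact_mod_cast hZ
  have hAx : (A : ℝ) ≤ x := by exact_mod_cast h5
  have hL : 0 ≤ Real.log x := Real.log_nonneg (by exact_mod_cast h1)
  set P : Finset ((ℤ × ℤ) × (ℤ × ℤ)) := {q ∈ ZD N ×ˢ Bx R | (x : ℤ) < lc q.1 q.2 ∧ lc q.1 q.2 ≤ 2 * x ∧ |ac q.1 q.2| ≤ A} with hPdef
  have hPc : (#P : ℝ) ≤ 5000 * CB * (x * A) := by
    have hP1 : (#P : ℝ) ≤ #(ZD N) * (CB * (R * (A / √(N : ℝ) + 1))) := by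
      refine CPN_fib2 P (ZD N) (fun z => {w ∈ Bx R | |(ac z w : ℝ) - (0 : ℤ)| ≤ (A : ℝ)}) _ ?_ ?_ ?_
      · intro t ht
        exact (mem_product.1 (mem_filter.1 ht).1).1
      · intro t ht
        obtain ⟨ha, -, -, hb⟩ := mem_filter.1 ht
        refine mem_filter.2 ⟨(mem_product.1 ha).2, ?_⟩
        push_cast
        rw [sub_zero]
        exact_mod_cast hb
      · intro z hz
        exact hBd N R h2 h3 z hz 0 A hA0.le
    have hP2 := CPN_ZD hFFC N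
    have hP3 : (#P : ℝ) ≤ 50 * N * (CB * (R * (A / √(N : ℝ) + 1))) :=
      hP1.trans (mul_le_mul_of_nonneg_right hP2 (by positivity))
    refine hP3.trans ?_
    have e4 : (N : ℝ) * (R * (A / √(N : ℝ) + 1)) = R * √(N : ℝ) * (A + √(N : ℝ)) := by
      have : (A : ℝ) / √(N : ℝ) + 1 = (A + √(N : ℝ)) / √(N : ℝ) := by
        field_simp
      rw [this]
      nth_rewrite 1 [← hss]
      field_simp
    have e5 : R * √(N : ℝ) * (A + √(N : ℝ)) ≤ 50 * x * (2 * A) :=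
      mul_le_mul e1 (by linarith) (by positivity) (by positivity)
    calc 50 * (N : ℝ) * (CB * (R * (A / √(N : ℝ) + 1))) = 50 * CB * (N * (R * (A / √(N : ℝ) + 1))) := by ring
      _ = 50 * CB * (R * √(N : ℝ) * (A + √(N : ℝ))) := by rw [e4]
      _ ≤ 50 * CB * (50 * x * (2 * A)) := mul_le_mul_of_nonneg_left e5 (by positivity)
      _ = 5000 * CB * (x * A) := by ring
  have hmain := CPN_fib ({t ∈ (ZD N ×ˢ ZD N) ×ˢ Bx R | (x : ℤ) < lc t.1.1 t.2 ∧ lc t.1.1 t.2 ≤ 2 * x ∧ |ac t.1.1 t.2| ≤ A ∧ |ac t.1.2 t.2| ≤ A ∧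
      ∃ g : ℕ, g.Prime ∧ Z < g ∧ (g : ℤ) ∣ lc t.1.1 t.2 ∧ (g : ℤ) ∣ lc t.1.2 t.2 ∧ ¬ ((g : ℤ) ∣ t.2.1 ∧ (g : ℤ) ∣ t.2.2)}) P
    (fun q => ({g ∈ (lc q.1 q.2).natAbs.primeFactors | Z < g ∧ ¬ ((g : ℤ) ∣ q.2.1 ∧ (g : ℤ) ∣ q.2.2)}).biUnion
      fun g => {z ∈ ZD N | |(ac z q.2 : ℝ)| ≤ (A : ℝ) ∧ (g : ℤ) ∣ lc z q.2})
    (2 * (1 + Real.log x) * (CG * (N * A / (x * Z) + √(N : ℝ)))) ?_ ?_ ?_
  · refine hmain.trans ?_
    have e6 : 0 ≤ 2 * (1 + Real.log x) * (CG * (N * A / (x * Z) + √(N : ℝ))) := by positivity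
    refine (mul_le_mul_of_nonneg_right hPc e6).trans (le_of_eq ?_)
    field_simp
    ring
  · intro t ht
    obtain ⟨ha, hb, hc, hd, -⟩ := mem_filter.1 ht
    exact mem_filter.2 ⟨mem_product.2 ⟨(mem_product.1 (mem_product.1 ha).1).1, (mem_product.1 ha).2⟩, hb, hc, hd⟩
  · intro t ht
    obtain ⟨ha, hb, hc, hd, he, g, g1, g2, g3, g4, g5⟩ := mem_filter.1 ht
    refine mem_biUnion.2 ⟨g, mem_filter.2 ⟨?_, g2, g5⟩, mem_filter.2 ⟨(mem_product.1 (mem_product.1 ha).1).2, ?_, g4⟩⟩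
    · refine Nat.mem_primeFactors.2 ⟨g1, Int.natCast_dvd.1 g3, ?_⟩
      have : (0 : ℤ) < x := by exact_mod_cast h1
      exact Int.natAbs_ne_zero.2 (by dsimp only; omega)
    · exact_mod_cast he
  · intro q hq
    obtain ⟨ha, hb, hc, hd⟩ := mem_filter.1 hq
    have hcard : (#(({g ∈ (lc q.1 q.2).natAbs.primeFactors | Z < g ∧ ¬ ((g : ℤ) ∣ q.2.1 ∧ (g : ℤ) ∣ q.2.2)}).biUnion
      fun g => {z ∈ ZD N | |(ac z q.2 : ℝ)| ≤ (A : ℝ) ∧ (g : ℤ) ∣ lc z q.2}) : ℝ) ≤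
        ∑ g ∈ (lc q.1 q.2).natAbs.primeFactors with Z < g ∧ ¬ ((g : ℤ) ∣ q.2.1 ∧ (g : ℤ) ∣ q.2.2),
          (#{z ∈ ZD N | |(ac z q.2 : ℝ)| ≤ (A : ℝ) ∧ (g : ℤ) ∣ lc z q.2} : ℝ) := by
      exact_mod_cast card_biUnion_le
    refine hcard.trans ?_
    have hterm : ∀ g ∈ ({g ∈ (lc q.1 q.2).natAbs.primeFactors | Z < g ∧ ¬ ((g : ℤ) ∣ q.2.1 ∧ (g : ℤ) ∣ q.2.2)} : Finset ℕ),
        (#{z ∈ ZD N | |(ac z q.2 : ℝ)| ≤ (A : ℝ) ∧ (g : ℤ) ∣ lc z q.2} : ℝ) ≤ CG * (N * A / (x * Z) + √(N : ℝ)) := by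
      intro g hg
      obtain ⟨g1, g2, g3⟩ := mem_filter.1 hg
      have g4 := Nat.prime_of_mem_primeFactors g1
      refine (hG N x g h2 h1 g4 q.1 (mem_product.1 ha).1 q.2 hb g3 A hA0.le hAx).trans ?_
      refine mul_le_mul_of_nonneg_left (add_le_add_left ?_ _) hCG.le
      refine div_le_div_of_nonneg_left (by positivity) (by positivity) ?_
      refine mul_le_mul_of_nonneg_left ?_ hx0.le
      exact_mod_cast g2.le
    refine (sum_le_sum hterm).trans ?_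
    rw [sum_const, nsmul_eq_mul]
    refine mul_le_mul_of_nonneg_right ?_ (by positivity)
    refine le_trans (b := (#(lc q.1 q.2).natAbs.primeFactors : ℝ)) (by exact_mod_cast card_le_card (filter_subset _ _)) ?_
    refine CPN_om _ x h1 ?_ ?_
    · have : (0 : ℤ) < x := by exact_mod_cast h1
      exact Int.natAbs_ne_zero.2 (by omega)
    · have : (0 : ℤ) < x := by exact_mod_cast h1
      omega

open scoped Classical in
/-- part (ii) -/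
private theorem CPN_two (hCZP : CZP_stmt) (hBDG : BDG_stmt) (hFFC : FFC_stmt) :
    ∃ C : ℝ, 0 < C ∧ ∀ x N R A Z : ℕ, Siz x N R A → 1 ≤ Z →
  (#{t ∈ (ZD N ×ˢ ZD N) ×ˢ Bx R | t.2.1 % 2 = 1 ∧ (x : ℤ) < lc t.1.1 t.2 ∧ |ac t.1.1 t.2| ≤ A ∧ |ac t.1.2 t.2| ≤ A ∧
      ∃ g : ℕ, g.Prime ∧ Z < g ∧ (g : ℤ) ∣ t.2.1 ∧ (g : ℤ) ∣ t.2.2} : ℝ)
    ≤ C * (1 + Real.log x) * (N * A ^ 2 / Z + N * √N * A) := by
  obtain ⟨CP, hCP, hPp⟩ := hCZP
  obtain ⟨CD, hCD, hD⟩ := hBDG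
  refine ⟨25000 * CP * CD, by positivity, fun x N R A Z hS hZ => ?_⟩
  obtain ⟨hs, hss, e1, e2, e3⟩ := CPN_siz hS
  obtain ⟨h1, h2, h3, h4, h5, h6, h7, h8, h9⟩ := hS
  have hx0 : (0 : ℝ) < x := by exact_mod_cast h1
  have hN0 : (0 : ℝ) < N := by exact_mod_cast h2
  have hR0 : (0 : ℝ) < R := by exact_mod_cast h3
  have hA0 : (0 : ℝ) < A := by exact_mod_cast h4
  have hZ0 : (0 : ℝ) < Z := by exact_mod_cast hZ
  have hAx : (A : ℝ) ≤ x := by exact_mod_cast h5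
  have hL : 0 ≤ Real.log x := Real.log_nonneg (by exact_mod_cast h1)
  have hs1 : 1 ≤ √(N : ℝ) := by
    rw [Real.one_le_sqrt]
    exact_mod_cast h2
  have hlogR : 1 + Real.log R ≤ 5 * (1 + Real.log x) := by
    have f1 : (R : ℝ) ≤ 50 * x := by nlinarith
    have f2 := Real.log_le_log hR0 f1
    rw [Real.log_mul (by norm_num) hx0.ne'] at f2
    have f3 : Real.log 50 ≤ 4 := by
      rw [Real.log_le_iff_le_exp (by norm_num)]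
      have f4 : (2.718 : ℝ) ≤ Real.exp 1 := by linarith [Real.exp_one_gt_d9]
      have f5 : Real.exp 4 = Real.exp 1 ^ 4 := by
        rw [← Real.exp_nat_mul]
        norm_num
      rw [f5]
      calc (50 : ℝ) ≤ 2.718 ^ 4 := by norm_num
        _ ≤ Real.exp 1 ^ 4 := pow_le_pow_left₀ (by norm_num) f4 4
    linarith
  set P : Finset ((ℤ × ℤ) × (ℤ × ℤ)) := {q ∈ ZD N ×ˢ Bx R | (x : ℤ) < lc q.1 q.2 ∧ |ac q.1 q.2| ≤ A ∧
    ∃ g ∈ Ioc Z R, q.2 ≠ 0 ∧ (g : ℤ) ∣ q.2.1 ∧ (g : ℤ) ∣ q.2.2} with hPdef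
  have hPc : (#P : ℝ) ≤ 50 * CD * (50 * x * A / Z + 250 * x * √(N : ℝ) * (1 + Real.log x)) := by
    have hP1 : (#P : ℝ) ≤ #(ZD N) * (CD * (R * (A / (√(N : ℝ) * Z) + 5 * (1 + Real.log x)))) := by
      refine CPN_fib2 P (ZD N) (fun z => (Ioc Z R).biUnion fun g =>
        {w ∈ Bx R | w ≠ 0 ∧ (g : ℤ) ∣ w.1 ∧ (g : ℤ) ∣ w.2 ∧ |(ac z w : ℝ)| ≤ (A : ℝ)}) _ ?_ ?_ ?_
      · intro t ht
        exact (mem_product.1 (mem_filter.1 ht).1).1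
      · intro t ht
        obtain ⟨ha, -, hb, g, hg, g1, g2, g3⟩ := mem_filter.1 ht
        refine mem_biUnion.2 ⟨g, hg, mem_filter.2 ⟨(mem_product.1 ha).2, g1, g2, g3, ?_⟩⟩
        exact_mod_cast hb
      · intro z hz
        have hcard : (#((Ioc Z R).biUnion fun g =>
            {w ∈ Bx R | w ≠ 0 ∧ (g : ℤ) ∣ w.1 ∧ (g : ℤ) ∣ w.2 ∧ |(ac z w : ℝ)| ≤ (A : ℝ)}) : ℝ) ≤
            ∑ g ∈ Ioc Z R, (#{w ∈ Bx R | w ≠ 0 ∧ (g : ℤ) ∣ w.1 ∧ (g : ℤ) ∣ w.2 ∧ |(ac z w : ℝ)| ≤ (A : ℝ)} : ℝ) := by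
          exact_mod_cast card_biUnion_le
        refine hcard.trans ?_
        have hterm : ∀ g ∈ Ioc Z R, (#{w ∈ Bx R | w ≠ 0 ∧ (g : ℤ) ∣ w.1 ∧ (g : ℤ) ∣ w.2 ∧ |(ac z w : ℝ)| ≤ (A : ℝ)} : ℝ) ≤
            CD * (R * (A / √(N : ℝ) * (1 / (g : ℝ) ^ 2) + 1 / g)) := by
          intro g hg
          have hg1 : 1 ≤ g := by
            rw [mem_Ioc] at hg
            omega
          have hg0 : (0 : ℝ) < g := by exact_mod_cast hg1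
          refine (hD N R g h2 h3 hg1 z hz A hA0.le).trans (le_of_eq ?_)
          field_simp
        refine (sum_le_sum hterm).trans ?_
        rw [← mul_sum, ← mul_sum, sum_add_distrib, ← mul_sum]
        refine mul_le_mul_of_nonneg_left (mul_le_mul_of_nonneg_left (add_le_add ?_ ?_) hR0.le) hCD.le
        · refine (mul_le_mul_of_nonneg_left (CPN_inv Z R hZ) (by positivity)).trans (le_of_eq ?_)
          field_simp
        · exact (CPN_har Z R h3).trans hlogR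
    have hP2 := CPN_ZD hFFC N
    have hP3 : (#P : ℝ) ≤ 50 * N * (CD * (R * (A / (√(N : ℝ) * Z) + 5 * (1 + Real.log x)))) :=
      hP1.trans (mul_le_mul_of_nonneg_right hP2 (by positivity))
    refine hP3.trans ?_
    have e4 : (N : ℝ) * (R * (A / (√(N : ℝ) * Z) + 5 * (1 + Real.log x))) =
        R * √(N : ℝ) * (A / Z + 5 * √(N : ℝ) * (1 + Real.log x)) := by
      nth_rewrite 1 [← hss]
      field_simp
    have e5 : R * √(N : ℝ) * (A / Z + 5 * √(N : ℝ) * (1 + Real.log x)) ≤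
        50 * x * (A / Z + 5 * √(N : ℝ) * (1 + Real.log x)) :=
      mul_le_mul_of_nonneg_right e1 (by positivity)
    calc 50 * (N : ℝ) * (CD * (R * (A / (√(N : ℝ) * Z) + 5 * (1 + Real.log x)))) =
          50 * CD * (N * (R * (A / (√(N : ℝ) * Z) + 5 * (1 + Real.log x)))) := by ring
      _ = 50 * CD * (R * √(N : ℝ) * (A / Z + 5 * √(N : ℝ) * (1 + Real.log x))) := by rw [e4]
      _ ≤ 50 * CD * (50 * x * (A / Z + 5 * √(N : ℝ) * (1 + Real.log x))) := mul_le_mul_of_nonneg_left e5 (by positivity)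
      _ = 50 * CD * (50 * x * A / Z + 250 * x * √(N : ℝ) * (1 + Real.log x)) := by ring
  have hmain := CPN_fib ({t ∈ (ZD N ×ˢ ZD N) ×ˢ Bx R | t.2.1 % 2 = 1 ∧ (x : ℤ) < lc t.1.1 t.2 ∧ |ac t.1.1 t.2| ≤ A ∧ |ac t.1.2 t.2| ≤ A ∧
      ∃ g : ℕ, g.Prime ∧ Z < g ∧ (g : ℤ) ∣ t.2.1 ∧ (g : ℤ) ∣ t.2.2}) P
    (fun q => {z ∈ ZD N | |(ac z q.2 : ℝ) - (0 : ℤ)| ≤ (A : ℝ)})
    (2 * CP * (N * A / x)) ?_ ?_ ?_
  · refine hmain.trans ?_
    refine (mul_le_mul_of_nonneg_right hPc (by positivity)).trans ?_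
    have e6 : 50 * CD * (50 * x * A / Z + 250 * x * √(N : ℝ) * (1 + Real.log x)) * (2 * CP * (N * A / x)) =
        25000 * CP * CD * (1 / 5 * (N * A ^ 2 / Z) + (1 + Real.log x) * (N * √(N : ℝ) * A)) := by
      field_simp
      ring
    rw [e6, mul_assoc (25000 * CP * CD)]
    refine mul_le_mul_of_nonneg_left ?_ (by positivity)
    have e7 : 0 ≤ (N : ℝ) * A ^ 2 / Z := by positivity
    nlinarith
  · intro t ht
    obtain ⟨ha, h0, hb, hd, -, g, g1, g2, g3, g4⟩ := mem_filter.1 ht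
    refine mem_filter.2 ⟨mem_product.2 ⟨(mem_product.1 (mem_product.1 ha).1).1, (mem_product.1 ha).2⟩, hb, hd, g, ?_, ?_, g3, g4⟩
    · rw [mem_Ioc]
      refine ⟨g2, ?_⟩
      have hw := (mem_product.1 ha).2
      unfold Bx at hw
      have hw1 := mem_Icc.1 (mem_product.1 hw).1
      have hne : t.2.1 ≠ 0 := by omega
      have hle := Int.le_of_dvd (abs_pos.2 hne) ((dvd_abs _ _).2 g3)
      have : |t.2.1| ≤ (R : ℤ) := abs_le.2 hw1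
      omega
    · intro h
      have : t.2.1 = 0 := by
        have h' : t.2 = 0 := h
        rw [h']
        rfl
      omega
  · intro t ht
    obtain ⟨ha, h0, hb, hd, he, -⟩ := mem_filter.1 ht
    refine mem_filter.2 ⟨(mem_product.1 (mem_product.1 ha).1).2, ?_⟩
    push_cast
    rw [sub_zero]
    exact_mod_cast he
  · intro q hq
    obtain ⟨ha, hb, -⟩ := mem_filter.1 hq
    refine (hPp N x h2 h1 q.1 (mem_product.1 ha).1 q.2 hb 0 A hA0.le).trans ?_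
    have e8 : √(N : ℝ) * (A * √(N : ℝ) / x + 1) ≤ 2 * (N * A / x) := by
      have f1 : (1 : ℝ) ≤ A * √(N : ℝ) / x := by
        rw [le_div_iff₀ hx0]
        linarith
      calc √(N : ℝ) * (A * √(N : ℝ) / x + 1) ≤ √(N : ℝ) * (A * √(N : ℝ) / x + A * √(N : ℝ) / x) :=
            mul_le_mul_of_nonneg_left (by linarith) hs.le
        _ = 2 * ((√(N : ℝ) * √(N : ℝ)) * A / x) := by ring
        _ = 2 * (N * A / x) := by rw [hss]
    calc CP * (√(N : ℝ) * (A * √(N : ℝ) / x + 1)) ≤ CP * (2 * (N * A / x)) := mul_le_mul_of_nonneg_left e8 hCP.le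
      _ = 2 * CP * (N * A / x) := by ring

theorem CPN (hCZP : CZP_stmt) (hCZG : CZG_stmt) (hBDZ : BDZ_stmt) (hBDG : BDG_stmt) (hFFC : FFC_stmt) : CPN_stmt := by
  classical
  obtain ⟨C₁, hC₁, H₁⟩ := CPN_one hCZG hBDZ hFFC
  obtain ⟨C₂, hC₂, H₂⟩ := CPN_two hCZP hBDG hFFC
  refine ⟨C₁ + C₂, by positivity, fun x N R A Z hS hZ => ?_⟩
  have k1 := H₁ x N R A Z hS hZ
  have k2 := H₂ x N R A Z hS hZ
  have hL : 0 ≤ Real.log x := Real.log_nonneg (by exact_mod_cast hS.1)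
  have hsub : ({t ∈ (ZD N ×ˢ ZD N) ×ˢ Bx R | t.2.1 % 2 = 1 ∧ (x : ℤ) < lc t.1.1 t.2 ∧ lc t.1.1 t.2 ≤ 2 * x ∧ |ac t.1.1 t.2| ≤ A ∧ |ac t.1.2 t.2| ≤ A ∧
      ∃ g : ℕ, g.Prime ∧ Z < g ∧ (g : ℤ) ∣ lc t.1.1 t.2 ∧ (g : ℤ) ∣ lc t.1.2 t.2} : Finset (((ℤ × ℤ) × (ℤ × ℤ)) × (ℤ × ℤ))) ⊆
      {t ∈ (ZD N ×ˢ ZD N) ×ˢ Bx R | (x : ℤ) < lc t.1.1 t.2 ∧ lc t.1.1 t.2 ≤ 2 * x ∧ |ac t.1.1 t.2| ≤ A ∧ |ac t.1.2 t.2| ≤ A ∧
      ∃ g : ℕ, g.Prime ∧ Z < g ∧ (g : ℤ) ∣ lc t.1.1 t.2 ∧ (g : ℤ) ∣ lc t.1.2 t.2 ∧ ¬ ((g : ℤ) ∣ t.2.1 ∧ (g : ℤ) ∣ t.2.2)} ∪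
      {t ∈ (ZD N ×ˢ ZD N) ×ˢ Bx R | t.2.1 % 2 = 1 ∧ (x : ℤ) < lc t.1.1 t.2 ∧ |ac t.1.1 t.2| ≤ A ∧ |ac t.1.2 t.2| ≤ A ∧
      ∃ g : ℕ, g.Prime ∧ Z < g ∧ (g : ℤ) ∣ t.2.1 ∧ (g : ℤ) ∣ t.2.2} := by
    intro t ht
    obtain ⟨ha, h0, hb, hc, hd, he, g, g1, g2, g3, g4⟩ := mem_filter.1 ht
    rw [mem_union]
    by_cases hg : (g : ℤ) ∣ t.2.1 ∧ (g : ℤ) ∣ t.2.2
    · exact Or.inr (mem_filter.2 ⟨ha, h0, hb, hd, he, g, g1, g2, hg.1, hg.2⟩)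
    · exact Or.inl (mem_filter.2 ⟨ha, hb, hc, hd, he, g, g1, g2, g3, g4, hg⟩)
  have k3 := (card_le_card hsub).trans (card_union_le _ _)
  have k4 := (Nat.cast_le (α := ℝ)).2 k3
  rw [Nat.cast_add] at k4
  refine k4.trans ((add_le_add k1 k2).trans ?_)
  have p1 : 0 ≤ (N : ℝ) * A ^ 2 / Z := by positivity
  have p2 : 0 ≤ (x : ℝ) * A * √(N : ℝ) := by positivity
  have p3 : 0 ≤ (N : ℝ) * √(N : ℝ) * A := by positivity
  have q1 : C₁ * (1 + Real.log x) * (N * A ^ 2 / Z + x * A * √(N : ℝ)) ≤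
      C₁ * (1 + Real.log x) * (N * A ^ 2 / Z + x * A * √(N : ℝ) + N * √(N : ℝ) * A) :=
    mul_le_mul_of_nonneg_left (by linarith) (by positivity)
  have q2 : C₂ * (1 + Real.log x) * (N * A ^ 2 / Z + N * √(N : ℝ) * A) ≤
      C₂ * (1 + Real.log x) * (N * A ^ 2 / Z + x * A * √(N : ℝ) + N * √(N : ℝ) * A) :=
    mul_le_mul_of_nonneg_left (by linarith) (by positivity)
  calc _ ≤ _ := add_le_add q1 q2
    _ = _ := by ring

end Pool.Agent.FJ
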