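import Pool.Agent.helper95.FJ.SpecX
import Pool.Agent.helper85.BVP.PairSieve

/-!
# fj:PSP (copy of Pool/Agent/helper30/FI/PSU.lean)
-/

set_option autoImplicit false

namespace Pool.Agent.FJ

open Finset Pool.Agent.FI Pool.Agent.BP Pool.Agent.Lib.BrunHooley

/-- residues to be avoided -/
private def PSP_C (p l : ℕ) : Finset ℕ :=
  if l.Prime then (range l).filter (fun c => (l : ℤ) ∣ 8 * (p : ℤ) ^ 2 - (c : ℤ) ^ 2) else ∅

private theorem PSP_mem {p l c : ℕ} (hl : l.Prime) : c ∈ PSP_C p l ↔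
    c < l ∧ (l : ℤ) ∣ 8 * (p : ℤ) ^ 2 - (c : ℤ) ^ 2 := by
  unfold PSP_C
  rw [if_pos hl, mem_filter, mem_range]

private theorem PSP_np {p l : ℕ} (hl : ¬ l.Prime) : PSP_C p l = ∅ := by
  unfold PSP_C
  rw [if_neg hl]

private theorem PSP_two {p : ℕ} : PSP_C p 2 ⊆ {0} := by
  intro c hc
  rw [PSP_mem Nat.prime_two] at hc
  obtain ⟨h1, h2⟩ := hc
  rw [mem_singleton]
  by_contra h0
  have h3 : c = 1 := by omega
  subst h3
  obtain ⟨m, hm⟩ := h2
  push_cast at hm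
  omega

private theorem PSP_le2 (p l : ℕ) : #(PSP_C p l) ≤ 2 := by
  by_cases hl : l.Prime
  swap
  · rw [PSP_np hl]; simp
  by_cases hex : ∃ c₁ : ℕ, 0 < c₁ ∧ c₁ < l ∧ (l : ℤ) ∣ 8 * (p : ℤ) ^ 2 - (c₁ : ℤ) ^ 2
  · obtain ⟨c₁, h0, h1, hd⟩ := hex
    have hsub : PSP_C p l ⊆ {c₁, l - c₁} := by
      intro c hc
      rw [PSP_mem hl] at hc
      obtain ⟨hcl, h3⟩ := hc
      have h4 : (l : ℤ) ∣ ((c : ℤ) - c₁) * ((c : ℤ) + c₁) := by
        have h5 := dvd_sub hd h3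
        have e : 8 * (p : ℤ) ^ 2 - (c₁ : ℤ) ^ 2 - (8 * (p : ℤ) ^ 2 - (c : ℤ) ^ 2) =
            ((c : ℤ) - c₁) * ((c : ℤ) + c₁) := by ring
        rwa [e] at h5
      have hlp : Prime (l : ℤ) := Nat.prime_iff_prime_int.1 hl
      rcases hlp.dvd_or_dvd h4 with h6 | h6
      · have h7 : (c : ℤ) - c₁ = 0 := Int.eq_zero_of_abs_lt_dvd h6 (by
          rw [abs_lt]; constructor <;> omega)
        have h8 : c = c₁ := by omega
        simp [h8]
      · have h7 : l ∣ c + c₁ := by exact_mod_cast h6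
        obtain ⟨m, hm⟩ := h7
        have h8 : m < 2 := by
          by_contra hc
          have : l * 2 ≤ l * m := Nat.mul_le_mul_left l (by omega)
          omega
        have h9 : m ≠ 0 := by
          rintro rfl
          omega
        have h10 : m = 1 := by omega
        subst h10
        have h11 : c = l - c₁ := by omega
        simp [h11]
    exact (card_le_card hsub).trans card_le_two
  · have hsub : PSP_C p l ⊆ {0} := by
      intro c hc
      rw [PSP_mem hl] at hc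
      obtain ⟨hcl, h3⟩ := hc
      rw [mem_singleton]
      by_contra h4
      exact hex ⟨c, Nat.pos_of_ne_zero h4, hcl, h3⟩
    exact (card_le_card hsub).trans (by simp)

private theorem PSP_lt {p l : ℕ} (hl : l.Prime) : #(PSP_C p l) < l := by
  have h2 := hl.two_le
  by_cases h3 : l = 2
  · subst h3
    exact lt_of_le_of_lt (card_le_card PSP_two) (by simp)
  exact lt_of_le_of_lt (PSP_le2 p l) (by omega)

private theorem PSP_ge2 {p l : ℕ} (hl : l.Prime) (h8 : l % 8 = 1 ∨ l % 8 = 7) (hla : ¬ l ∣ p) :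
    2 ≤ #(PSP_C p l) := by
  have : Fact l.Prime := ⟨hl⟩
  have hne : NeZero l := ⟨hl.ne_zero⟩
  have h2 : l ≠ 2 := by
    rintro rfl
    omega
  obtain ⟨s, hs⟩ := (ZMod.exists_sq_eq_two_iff h2).2 h8
  have h20 : (2 : ZMod l) ≠ 0 := by
    intro h
    have h3 : ((2 : ℕ) : ZMod l) = 0 := by exact_mod_cast h
    rw [ZMod.natCast_eq_zero_iff] at h3
    exact h2 ((Nat.prime_dvd_prime_iff_eq hl Nat.prime_two).1 h3)
  have hs0 : s ≠ 0 := by
    rintro rfl
    exact h20 (by rw [hs, mul_zero])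
  have ha0 : (p : ZMod l) ≠ 0 := by
    intro h
    rw [ZMod.natCast_eq_zero_iff] at h
    exact hla h
  set r : ZMod l := 2 * s * (p : ZMod l) with hr
  have hr0 : r ≠ 0 := mul_ne_zero (mul_ne_zero h20 hs0) ha0
  have hr2 : r ^ 2 = 8 * (p : ZMod l) ^ 2 := by
    rw [hr]
    linear_combination (-4 * (p : ZMod l) ^ 2) * hs
  have hmem : ∀ u : ZMod l, u ^ 2 = 8 * (p : ZMod l) ^ 2 → u.val ∈ PSP_C p l := by
    intro u hu
    rw [PSP_mem hl]
    refine ⟨ZMod.val_lt u, ?_⟩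
    rw [← ZMod.intCast_zmod_eq_zero_iff_dvd]
    push_cast
    rw [ZMod.natCast_val, ZMod.cast_id', id_eq, hu, sub_self]
  have hsub : {r.val, (-r).val} ⊆ PSP_C p l := by
    intro c hc
    rw [mem_insert, mem_singleton] at hc
    rcases hc with rfl | rfl
    · exact hmem r hr2
    · exact hmem (-r) (by rw [neg_sq]; exact hr2)
  have hcard : #({r.val, (-r).val} : Finset ℕ) = 2 := by
    apply card_pair
    intro h
    have h3 : r = -r := ZMod.val_injective l h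
    have h4 : 2 * r = 0 := by linear_combination h3
    exact hr0 ((mul_eq_zero.1 h4).resolve_left h20)
  rw [← hcard]
  exact card_le_card hsub

private theorem PSP_prod (hM8 : Pool.Agent.FIP.M8_stmt) : ∃ K : ℝ, 0 < K ∧ ∀ z : ℕ, 2 ≤ z → ∀ p : ℕ, p.Prime →
    z < p → ∏ l ∈ Nat.primesLE z, (1 - (#(PSP_C p l) : ℝ) / l) ≤ K / Real.log z := by
  obtain ⟨C, hC, hM⟩ := hM8
  refine ⟨Real.exp C, Real.exp_pos _, ?_⟩
  intro z hz p hp hzp
  have hz' : (2 : ℝ) ≤ z := by exact_mod_cast hz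
  have hlz : 0 < Real.log z := Real.log_pos (by linarith)
  set T : Finset ℕ := (Icc 1 z).filter (fun l => l.Prime ∧ (l % 8 = 1 ∨ l % 8 = 7)) with hT
  have hTS : T ⊆ Nat.primesLE z := by
    intro l hl
    rw [hT, mem_filter, mem_Icc] at hl
    exact Nat.mem_primesLE.2 ⟨hl.1.2, hl.2.1⟩
  have h1 : ∀ l ∈ Nat.primesLE z, 1 - (#(PSP_C p l) : ℝ) / l ≤
      (if l ∈ T then Real.exp (-(2 / (l : ℝ))) else 1) := by
    intro l hl
    have hlp := (Nat.mem_primesLE.mp hl).2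
    have hl0 : (0 : ℝ) < l := by exact_mod_cast hlp.pos
    split_ifs with hmem
    · rw [hT, mem_filter] at hmem
      have hlp' : ¬ l ∣ p := by
        intro h
        have h2 := (Nat.prime_dvd_prime_iff_eq hlp hp).1 h
        have h3 := (Nat.mem_primesLE.mp hl).1
        omega
      have h3 : (2 : ℝ) ≤ #(PSP_C p l) := by exact_mod_cast PSP_ge2 hlp hmem.2.2 hlp'
      have h4 : 1 - (#(PSP_C p l) : ℝ) / l ≤ 1 - 2 / l := by
        have := div_le_div_of_nonneg_right h3 hl0.le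
        linarith
      have h5 : 1 - 2 / (l : ℝ) ≤ Real.exp (-(2 / (l : ℝ))) := by
        have := Real.add_one_le_exp (-(2 / (l : ℝ)))
        linarith
      exact h4.trans h5
    · have : (0 : ℝ) ≤ (#(PSP_C p l) : ℝ) / l := by positivity
      linarith
  have h2 : ∏ l ∈ Nat.primesLE z, (1 - (#(PSP_C p l) : ℝ) / l) ≤
      Real.exp (-∑ l ∈ T, 2 / (l : ℝ)) := by
    refine (prod_le_prod (fun l hl => ?_) h1).trans (le_of_eq ?_)
    · have hlp := (Nat.mem_primesLE.mp hl).2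
      rw [sub_nonneg, div_le_one (by exact_mod_cast hlp.pos)]
      exact_mod_cast (PSP_lt hlp).le
    · rw [prod_ite, prod_const_one, mul_one, ← sum_neg_distrib, Real.exp_sum]
      refine prod_congr ?_ fun _ _ => rfl
      ext l
      rw [mem_filter]
      exact ⟨fun h => h.2, fun h => ⟨hTS h, h⟩⟩
  have h4 := hM z hz
  have h5 : -∑ l ∈ T, 2 / (l : ℝ) ≤ C - Real.log (Real.log z) := by
    linarith
  refine h2.trans ((Real.exp_le_exp.2 h5).trans (le_of_eq ?_))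
  rw [Real.exp_sub, Real.exp_log hlz]

private theorem PSP_count {z A p : ℕ} (hzp : z < p) (hAp : A < p) :
    Pool.Agent.FIP.ctp A p ≤ #(sifted 0 A z (PSP_C p)) := by
  unfold Pool.Agent.FIP.ctp
  refine card_le_card ?_
  intro a ha
  rw [mem_filter, mem_Icc] at ha
  obtain ⟨⟨h1, h2⟩, h3, h4⟩ := ha
  rw [sifted, mem_filter, mem_Ioc]
  refine ⟨⟨by omega, by omega⟩, ?_⟩
  intro l hl hmem
  obtain ⟨hlz, hlp⟩ := Nat.mem_primesLE.mp hl
  rw [PSP_mem hlp] at hmem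
  obtain ⟨-, h5⟩ := hmem
  have hap : a ^ 2 ≤ p ^ 2 := Nat.pow_le_pow_left (by omega) 2
  have hle : a ^ 2 ≤ 8 * p ^ 2 := by omega
  have h6 : (l : ℤ) ∣ ((8 * p ^ 2 - a ^ 2 : ℕ) : ℤ) := by
    push_cast [Nat.cast_sub hle]
    have h7 : (l : ℤ) ∣ (a : ℤ) - ((a % l : ℕ) : ℤ) := by
      rw [Int.natCast_mod]
      exact Int.dvd_self_sub_emod
    have e : 8 * (p : ℤ) ^ 2 - (a : ℤ) ^ 2 = (8 * (p : ℤ) ^ 2 - ((a % l : ℕ) : ℤ) ^ 2) -
        ((a : ℤ) - ((a % l : ℕ) : ℤ)) * ((a : ℤ) + ((a % l : ℕ) : ℤ)) := by ring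
    rw [e]
    exact dvd_sub h5 (h7.mul_right _)
  have h8 : l ∣ 8 * p ^ 2 - a ^ 2 := Int.natCast_dvd_natCast.1 h6
  have h9 := (Nat.prime_dvd_prime_iff_eq hlp h4).1 h8
  have h10 : p ≤ p ^ 2 := Nat.le_self_pow (by norm_num) p
  omega

private theorem PSP_ev (N : ℕ) : ∃ x₀ : ℕ, ∀ x : ℕ, x₀ ≤ x → ∀ A : ℕ, (x : ℝ) ^ (2 / 3 : ℝ) ≤ A →
    1 < x ∧ N ≤ A ∧ 1 ≤ Real.log A ∧ Real.log x ≤ 2 * Real.log A := by
  refine ⟨max (N ^ 2) 9, fun x hx A hA => ?_⟩
  have hx2 : N ^ 2 ≤ x := (le_max_left _ _).trans hx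
  have hx3 : 9 ≤ x := (le_max_right _ _).trans hx
  have hxr : (9 : ℝ) ≤ x := by exact_mod_cast hx3
  have hx0 : (0 : ℝ) < x := by linarith
  have h5 : √(x : ℝ) ≤ A := by
    refine le_trans ?_ hA
    rw [Real.sqrt_eq_rpow]
    exact Real.rpow_le_rpow_of_exponent_le (by linarith) (by norm_num)
  have h6 : (3 : ℝ) ≤ √x := by
    apply Real.le_sqrt_of_sq_le
    linarith
  have hA3 : (3 : ℝ) ≤ A := h6.trans h5
  refine ⟨by omega, ?_, ?_, ?_⟩
  · have h7 : (N : ℝ) ≤ √x := by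
      apply Real.le_sqrt_of_sq_le
      exact_mod_cast hx2
    exact_mod_cast h7.trans h5
  · rw [Real.le_log_iff_exp_le (by linarith)]
    have := Real.exp_one_lt_d9
    linarith
  · have h8 : (x : ℝ) ≤ (A : ℝ) ^ 2 := by
      have h9 := pow_le_pow_left₀ (Real.sqrt_nonneg _) h5 2
      rwa [Real.sq_sqrt hx0.le] at h9
    have h10 := Real.log_le_log hx0 h8
    rw [Real.log_pow] at h10
    exact_mod_cast h10

theorem PSP (hM8 : Pool.Agent.FIP.M8_stmt) : PSP_stmt := by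
  obtain ⟨K, hK, hprod⟩ := PSP_prod hM8
  obtain ⟨B, hB⟩ := interval_sieve 2
  refine ⟨16 * (B + 1) * K + 32, by positivity, ?_⟩
  obtain ⟨x₀, hx₀⟩ := PSP_ev (4 ^ (B + 1))
  refine ⟨x₀, ?_⟩
  intro x hx A hA hAx p hp
  obtain ⟨hx1, hA1, hA2, hA3⟩ := hx₀ x hx A hA
  rw [mem_filter, mem_Ioc] at hp
  obtain ⟨⟨hpx, -⟩, hpp⟩ := hp
  obtain ⟨r, hr1, hr2⟩ := Pool.Agent.helper85.BVP.pick_r B A hA1
  set z := Z r with hz
  have hz2 : 2 ≤ z := two_le_Z r
  have h4 : 4 ≤ 4 ^ (B + 1) := Nat.le_self_pow (by omega) 4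
  have hAr : (0 : ℝ) < A := by exact_mod_cast (by omega : 0 < A)
  have hlogA : 0 < Real.log A := by linarith
  have hlogx : 0 < Real.log x := Real.log_pos (by exact_mod_cast hx1)
  have hzA : z ≤ A := (Nat.le_self_pow (by omega) z).trans hr1
  have hz1 : (1 : ℝ) < z := by exact_mod_cast (by omega : 1 < z)
  have hlogz : 0 < Real.log z := Real.log_pos hz1
  have hs := (hB r 0 A (PSP_C p) (fun l hl c hc => ((PSP_mem hl).1 hc).1) (PSP_le2 p)
    (fun l hl => PSP_lt hl)).2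
  have hpr := hprod z hz2 p hpp (by omega)
  have hc : (Pool.Agent.FIP.ctp A p : ℝ) ≤ #(sifted 0 A z (PSP_C p)) := by
    exact_mod_cast PSP_count (by omega) (by omega)
  have hzB : (z : ℝ) ^ B ≤ √A := by
    apply Real.le_sqrt_of_sq_le
    have h1 : (z : ℝ) ^ (2 * (B + 1)) ≤ A := by exact_mod_cast hr1
    refine le_trans ?_ h1
    rw [← pow_mul]
    exact pow_le_pow_right₀ hz1.le (by omega)
  have herr : (z : ℝ) ^ B ≤ 32 * (A / Real.log x) := by
    rw [← mul_div_assoc, le_div_iff₀ (by positivity)]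
    calc (z : ℝ) ^ B * Real.log x ≤ √A * (2 * Real.log A ^ 2) := by
          refine mul_le_mul hzB ?_ hlogx.le (Real.sqrt_nonneg _)
          nlinarith
      _ = 2 * (√A * Real.log A ^ 2) := by ring
      _ ≤ 2 * (16 * (A : ℝ)) :=
          mul_le_mul_of_nonneg_left (Pool.Agent.helper85.BVP.sqrt_mul_log_sq_le A (by omega)) (by norm_num)
      _ = 32 * (A : ℝ) := by ring
  have hmain : K / Real.log z ≤ 8 * (B + 1) * K / Real.log x := by
    rw [div_le_div_iff₀ (by positivity) (by positivity)]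
    calc K * Real.log x ≤ K * (2 * (4 * (B + 1) * Real.log z)) := by
          refine mul_le_mul_of_nonneg_left ?_ hK.le
          linarith
      _ = _ := by ring
  calc (Pool.Agent.FIP.ctp A p : ℝ) ≤ #(sifted 0 A z (PSP_C p)) := hc
    _ ≤ 2 * (A : ℝ) * ∏ l ∈ Nat.primesLE z, (1 - ((#(PSP_C p l) : ℕ) : ℝ) / l) + (z : ℝ) ^ B := hs
    _ ≤ 2 * (A : ℝ) * (8 * (B + 1) * K / Real.log x) + 32 * (A / Real.log x) := by
        refine add_le_add ?_ herr
        exact mul_le_mul_of_nonneg_left (hpr.trans hmain) (by positivity)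
    _ = _ := by ring

end Pool.Agent.FJ
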